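import Pool.Agent.Helper66.PH.Good
import Pool.Agent.Helper98.PH.Windows
import Pool.Agent.Helper96.PH.Type
import Pool.Agent.Helper6.PH.Pieces

/-!
# P6, P7: all types
-/

set_option autoImplicit false

namespace Pool.Agent.Helper78.PH

open Pool.Agent.Helper74.NW Pool.Agent.Helper74.NE Pool.Agent.Helper19.NF Pool.Agent.Helper96.PH
open Pool.Agent.Helper74.NS (Expands)

section count

variable {X τ : Type} [Finite X] [Fintype τ]

theorem card_le_add_sum {p q : X → Prop} {r : τ → X → Prop} (h : ∀ x, p x → q x ∨ ∃ t, r t x) :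
    Nat.card {x // p x} ≤ Nat.card {x // q x} + ∑ t, Nat.card {x // r t x} := by
  classical
  have := Fintype.ofFinite X
  simp only [Nat.card_eq_fintype_card, Fintype.card_subtype]
  have h1 : Finset.univ.filter p ⊆ Finset.univ.filter q ∪ Finset.univ.biUnion (fun t => Finset.univ.filter (r t)) := by
    intro x hx
    rw [Finset.mem_filter] at hx
    rcases h x hx.2 with h2 | ⟨t, h2⟩
    · exact Finset.mem_union_left _ (Finset.mem_filter.mpr ⟨Finset.mem_univ _, h2⟩)
    · exact Finset.mem_union_right _ (Finset.mem_biUnion.mpr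
        ⟨t, Finset.mem_univ _, Finset.mem_filter.mpr ⟨Finset.mem_univ _, h2⟩⟩)
  exact (Finset.card_le_card h1).trans ((Finset.card_union_le _ _).trans
    (Nat.add_le_add_left Finset.card_biUnion_le _))

theorem sum_card_le {p : X → Prop} {r : τ → X → Prop} (h : ∀ t x, r t x → p x)
    (hu : ∀ t t' x, r t x → r t' x → t = t') :
    ∑ t, Nat.card {x // r t x} ≤ Nat.card {x // p x} := by
  classical
  have := Fintype.ofFinite X
  rw [← Nat.card_sigma]
  refine Nat.card_le_card_of_injective (fun s : Σ t, {x // r t x} => (⟨s.2.1, h s.1 s.2.1 s.2.2⟩ : {x // p x})) ?_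
  rintro ⟨t, x, hx⟩ ⟨t', x', hx'⟩ e
  have e1 : x = x' := congrArg Subtype.val e
  subst e1
  have e2 := hu t t' x hx hx'
  subst e2
  rfl

end count

section lists

variable {C W Z : Type} {S : ℕ} {P : NProg C W Z S} {I : C → W}

theorem run_flatten : ∀ (w : ℕ) (σ : Fin (w + 1) → Fin S) (x : Fin w → List C),
    (∀ j, P.Run I (σ j.castSucc) (x j) (σ j.succ)) → P.Run I (σ 0) (List.ofFn x).flatten (σ (Fin.last w)) := by
  intro w
  induction w with
  | zero =>
    intro σ x _
    rw [List.ofFn_zero, List.flatten_nil]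
    exact NProg.Run.nil _
  | succ w ih =>
    intro σ x h
    rw [List.ofFn_succ, List.flatten_cons]
    exact run_append (h 0) (ih (fun j => σ j.succ) (fun j => x j.succ) (fun j => h j.succ))

theorem flatten_piece {w : ℕ} (x : Fin w → List C) (j : Fin w) :
    ∃ A B, (List.ofFn x).flatten = A ++ x j ++ B := by
  have h1 : x j ∈ List.ofFn x := by
    rw [List.mem_ofFn]
    exact ⟨j, rfl⟩
  obtain ⟨s, t, h2⟩ := List.append_of_mem h1
  refine ⟨s.flatten, t.flatten, ?_⟩
  rw [h2, List.flatten_append, List.flatten_cons, List.append_assoc]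

theorem cuts_of_cut {T w : ℕ} {l : List C} (h : Cut T w l) : Pool.Agent.Helper6.PH.Cuts T w l := by
  obtain ⟨p, h1, h2, h3⟩ := h
  exact ⟨p, h2, h1.le, h3⟩

end lists

variable {n d m : ℕ} {B G Z : Type} [AddCommGroup B] [AddCommGroup G] [NeZero m] {S K : ℕ}
variable {g : Fin d → Equiv.Perm (Fin n)} {x0 : Fin n × Fin m → B}

theorem miss_isSome {I : B → Fin d × Fin m → B} {R : ℕ} {l : List B} {v : Fin n} (h : v ∉ comp g x0 I R l) :
    (miss g x0 I R l v).isSome := by
  classical
  unfold comp at h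
  rw [Finset.mem_filter] at h
  have h1 : ∃ c : Fin d × Fin m, val (fine g) x0 I R (g c.1 v, c.2) ∉ l := by
    by_contra h2
    push Not at h2
    exact h ⟨Finset.mem_univ _, h2⟩
  unfold miss
  rw [dif_pos h1]
  rfl

theorem opn_card {I : B → Fin d × Fin m → B} {R w a : ℕ} (x : Fin (w + 1) → List B)
    (h : ∀ l, (comp g x0 I R (x l)).card < a) :
    n ≤ (opn (fun l v => miss g x0 I R (x l) v)).card + (w + 1) * a := by
  classical
  have h1 : (Finset.univ : Finset (Fin n)) ⊆ opn (fun l v => miss g x0 I R (x l) v) ∪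
      Finset.univ.biUnion (fun l => comp g x0 I R (x l)) := by
    intro v _
    by_cases h2 : ∃ l, v ∈ comp g x0 I R (x l)
    · obtain ⟨l, h3⟩ := h2
      exact Finset.mem_union_right _ (Finset.mem_biUnion.mpr ⟨l, Finset.mem_univ _, h3⟩)
    · push Not at h2
      refine Finset.mem_union_left _ ?_
      unfold opn
      rw [Finset.mem_filter]
      exact ⟨Finset.mem_univ _, fun l => miss_isSome (h2 l)⟩
  have h2 := Finset.card_le_card h1
  rw [Finset.card_univ, Fintype.card_fin] at h2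
  have h3 : (Finset.univ.biUnion (fun l => comp g x0 I R (x l))).card ≤ (w + 1) * a := by
    refine (Finset.card_biUnion_le).trans ?_
    calc ∑ l : Fin (w + 1), (comp g x0 I R (x l)).card ≤ ∑ _l : Fin (w + 1), a :=
          Finset.sum_le_sum fun l _ => (h l).le
      _ = (w + 1) * a := by rw [Finset.sum_const, Finset.card_univ, Fintype.card_fin, smul_eq_mul]
  exact h2.trans ((Finset.card_union_le _ _).trans (Nat.add_le_add_left h3 _))

/-- The types: the states at the ends of the windows, and the missing letters. -/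
abbrev Ty (P : NProg B (Fin d × Fin m → B) Z S) (n w N : ℕ) : Type :=
  {θ : (Fin (w + 1) → Fin S) × (Fin (w + 1) → Fin n → Option (Fin d × Fin m)) //
    N ≤ (opn θ.2).card ∧ ∃ z, P.act (θ.1 (Fin.last w)) = Sum.inr z}

noncomputable instance (P : NProg B (Fin d × Fin m → B) Z S) (n w N : ℕ) : Fintype (Ty P n w N) :=
  Fintype.ofFinite _

theorem card_Ty (P : NProg B (Fin d × Fin m → B) Z S) (n w N : ℕ) :
    Nat.card (Ty P n w N) ≤ (S * (d * m + 1) ^ n) ^ (w + 1) := by
  refine (Nat.card_le_card_of_injective _ Subtype.val_injective).trans (le_of_eq ?_)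
  rw [Nat.card_prod, Nat.card_fun, Nat.card_fun, Nat.card_fun]
  simp only [Nat.card_eq_fintype_card, Fintype.card_fin, Fintype.card_option, Fintype.card_prod]
  rw [mul_pow]

/-- The states of a type. -/
def sig (P : NProg B (Fin d × Fin m → B) Z S) {n w N : ℕ} (θ : Ty P n w N) : Fin (w + 2) → Fin S :=
  Fin.cons P.start θ.1.1

theorem sig_zero (P : NProg B (Fin d × Fin m → B) Z S) {w N : ℕ} (θ : Ty P n w N) : sig P θ 0 = P.start := rfl

theorem sig_last (P : NProg B (Fin d × Fin m → B) Z S) {w N : ℕ} (θ : Ty P n w N) :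
    sig P θ (Fin.last _) = θ.1.1 (Fin.last w) := by
  unfold sig
  rw [← Fin.succ_last, Fin.cons_succ]

theorem sound_bound [Fintype B] [Fintype G] (hG : 2 ≤ Fintype.card G) (P : NProg B (Fin d × Fin m → B) G S)
    (g : Fin d → Equiv.Perm (Fin n)) (x0 : Fin n × Fin m → B) {R T a w N : ℕ} {δ E : ℝ}
    (hδ : DP B (Fin a × Fin m) T δ) (ha : 1 ≤ a) (hX : Expands g a) (hS : S ≤ 2 ^ R) (γ : B → G) (hE0 : 0 ≤ E)
    (hN : N + (w + 1) * a ≤ n) (hE : ∀ p, N ≤ p → CB γ (Fin p × Fin m) w E)
    (hP : ∀ I l z, P.Ends I l z → z = gout g x0 R γ I) :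
    (Nat.card {I : B → Fin d × Fin m → B // CF (fine g) x0 R I ∧ (∃ l z, P.Ends I l z) ∧
        ∀ l z, P.Shortest I l z → Cut T (w + 1) l} : ℝ) ≤
      (R * n.choose a * ((d * m) ^ a) ^ 2 * (S : ℝ) ^ 3 * δ + 2 * (S * (d * m + 1) ^ n) ^ (w + 1) * E) *
        Nat.card (B → Fin d × Fin m → B) := by
  classical
  let e := Fintype.equivFin B
  have hgood := Pool.Agent.Helper66.PH.good_bound (R := R) P e e.injective g x0 hδ ha hX
  -- every input is good or has a type
  have hcov : ∀ I : B → Fin d × Fin m → B, (CF (fine g) x0 R I ∧ (∃ l z, P.Ends I l z) ∧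
      ∀ l z, P.Shortest I l z → Cut T (w + 1) l) →
      (CF (fine g) x0 R I ∧ ∃ s l t, Best P e I s l t ∧ Nat.card {c // c ∈ l} ≤ T ∧
        a ≤ (comp g x0 I R l).card ∧ l.length ≤ 2 ^ R) ∨
      ∃ θ : Ty P n w N, CF (fine g) x0 R I ∧ InT P g x0 R (sig P θ) θ.1.2 (fun _ _ => True) I := by
    rintro I ⟨hI, ⟨l0, z0, h0⟩, hcut⟩
    obtain ⟨l, z, t, hb, hz, hs⟩ := exists_best e h0
    obtain ⟨q, x, hq0, hq1, hq2, hq3, hq4⟩ := Pool.Agent.Helper6.PH.best_pieces (w + 1) hb (cuts_of_cut (hcut l z hs))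
    by_cases hc : ∃ j, a ≤ (comp g x0 I R (x j)).card
    · obtain ⟨j, hj⟩ := hc
      refine Or.inl ⟨hI, q j.castSucc, x j, q j.succ, hq2 j, hq3 j, hj, ?_⟩
      exact (run_short (hq2 j).run (hq2 j).len).le.trans hS
    · push Not at hc
      refine Or.inr ⟨⟨(fun j => q j.succ, fun l v => miss g x0 I R (x l) v), ?_, z, ?_⟩, hI, ?_⟩
      · have h1 := opn_card x hc
        show N ≤ (opn (fun l v => miss g x0 I R (x l) v)).card
        omega
      · show P.act (q (Fin.last w).succ) = Sum.inr z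
        rw [Fin.succ_last, hq1]
        exact hz
      · intro j
        refine ⟨x j, ?_, trivial, fun v => rfl⟩
        have h1 : ∀ k : Fin (w + 2), (Fin.cons P.start (fun j : Fin (w + 1) => q j.succ) : Fin (w + 2) → Fin S) k = q k := by
          intro k
          refine Fin.cases ?_ (fun k => ?_) k
          · rw [Fin.cons_zero, hq0]
          · rw [Fin.cons_succ]
        show P.Run I ((Fin.cons P.start (fun j : Fin (w + 1) => q j.succ) : Fin (w + 2) → Fin S) j.castSucc) (x j)
          ((Fin.cons P.start (fun j : Fin (w + 1) => q j.succ) : Fin (w + 2) → Fin S) j.succ)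
        rw [h1, h1]
        exact (hq2 j).run
  have h1 := card_le_add_sum hcov
  -- one type
  have hone : ∀ θ : Ty P n w N, (Nat.card {I : B → Fin d × Fin m → B // CF (fine g) x0 R I ∧
      InT P g x0 R (sig P θ) θ.1.2 (fun _ _ => True) I} : ℝ) ≤ 2 * E * Nat.card (B → Fin d × Fin m → B) := by
    intro θ
    obtain ⟨z, hz⟩ := θ.2.2
    have h2 := type_bound (R := R) P g x0 γ (sig P θ) θ.1.2 (hE _ θ.2.1) (fun _ _ => True) z
    have h3 : ∀ I : B → Fin d × Fin m → B, (CF (fine g) x0 R I ∧ InT P g x0 R (sig P θ) θ.1.2 (fun _ _ => True) I ∧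
        gout g x0 R γ I = z) ↔ (CF (fine g) x0 R I ∧ InT P g x0 R (sig P θ) θ.1.2 (fun _ _ => True) I) := by
      intro I
      refine ⟨fun h => ⟨h.1, h.2.1⟩, fun h => ⟨h.1, h.2, ?_⟩⟩
      choose x hx using h.2
      have h4 := run_flatten (w + 1) (sig P θ) x (fun j => (hx j).1)
      rw [sig_zero, sig_last] at h4
      exact (hP I _ z ⟨_, h4, hz⟩).symm
    rw [Nat.card_congr (Equiv.subtypeEquivRight h3)] at h2
    set A : ℝ := (Nat.card {I : B → Fin d × Fin m → B // CF (fine g) x0 R I ∧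
      InT P g x0 R (sig P θ) θ.1.2 (fun _ _ => True) I} : ℝ) with hA
    have hA0 : 0 ≤ A := Nat.cast_nonneg _
    have hG' : (2 : ℝ) ≤ Nat.card G := by
      rw [Nat.card_eq_fintype_card]
      exact_mod_cast hG
    have h5 : A / Nat.card G ≤ A / 2 := div_le_div_of_nonneg_left hA0 (by norm_num) hG'
    linarith
  have h2 : (Nat.card {I : B → Fin d × Fin m → B // CF (fine g) x0 R I ∧ (∃ l z, P.Ends I l z) ∧
        ∀ l z, P.Shortest I l z → Cut T (w + 1) l} : ℝ) ≤
      (Nat.card {I : B → Fin d × Fin m → B // CF (fine g) x0 R I ∧ ∃ s l t, Best P e I s l t ∧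
        Nat.card {c // c ∈ l} ≤ T ∧ a ≤ (comp g x0 I R l).card ∧ l.length ≤ 2 ^ R} : ℝ) +
        ∑ θ : Ty P n w N, (Nat.card {I : B → Fin d × Fin m → B // CF (fine g) x0 R I ∧
          InT P g x0 R (sig P θ) θ.1.2 (fun _ _ => True) I} : ℝ) := by exact_mod_cast h1
  refine h2.trans ?_
  rw [add_mul]
  refine add_le_add hgood ?_
  calc ∑ θ : Ty P n w N, (Nat.card {I : B → Fin d × Fin m → B // CF (fine g) x0 R I ∧
          InT P g x0 R (sig P θ) θ.1.2 (fun _ _ => True) I} : ℝ)
      ≤ ∑ _θ : Ty P n w N, 2 * E * Nat.card (B → Fin d × Fin m → B) := Finset.sum_le_sum fun θ _ => hone θ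
    _ = Nat.card (Ty P n w N) * (2 * E * Nat.card (B → Fin d × Fin m → B)) := by
        rw [Finset.sum_const, Finset.card_univ, nsmul_eq_mul, Nat.card_eq_fintype_card (α := Ty P n w N)]
    _ ≤ ((S * (d * m + 1) ^ n) ^ (w + 1) : ℕ) * (2 * E * Nat.card (B → Fin d × Fin m → B)) := by
        refine mul_le_mul_of_nonneg_right ?_ (by positivity)
        exact_mod_cast card_Ty P n w N
    _ = _ := by
        push_cast
        ring

theorem unamb_bound [Fintype B] [Fintype G] (P : NProg B (Fin d × Fin m → B) G S) (hP : Unamb P)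
    (g : Fin d → Equiv.Perm (Fin n)) (x0 : Fin n × Fin m → B) {R T a w N : ℕ} {δ E : ℝ}
    (hδ : DP B (Fin a × Fin m) T δ) (ha : 1 ≤ a) (hX : Expands g a) (hS : S ≤ 2 ^ R) (γ : B → G) (hE0 : 0 ≤ E)
    (hN : N + (w + 1) * a ≤ n) (hE : ∀ p, N ≤ p → CB γ (Fin p × Fin m) w E) :
    (Nat.card {I : B → Fin d × Fin m → B // CF (fine g) x0 R I ∧ ∃ l, P.Ends I l (gout g x0 R γ I) ∧
        Cut T (w + 1) l} : ℝ) ≤
      Nat.card {I : B → Fin d × Fin m → B // ∃ l z, P.Ends I l z ∧ Cut T (w + 1) l} / Fintype.card G +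
        (R * n.choose a * ((d * m) ^ a) ^ 2 * (S : ℝ) ^ 3 * δ + (S * (d * m + 1) ^ n) ^ (w + 1) * E) *
          Nat.card (B → Fin d × Fin m → B) := by
  classical
  let e := Fintype.equivFin B
  have hgood := Pool.Agent.Helper66.PH.good_bound (R := R) P e e.injective g x0 hδ ha hX
  -- the result of a type
  choose zz hzz using fun θ : Ty P n w N => θ.2.2
  -- every input is good or has a type
  have hcov : ∀ I : B → Fin d × Fin m → B, (CF (fine g) x0 R I ∧ ∃ l, P.Ends I l (gout g x0 R γ I) ∧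
      Cut T (w + 1) l) →
      (CF (fine g) x0 R I ∧ ∃ s l t, Best P e I s l t ∧ Nat.card {c // c ∈ l} ≤ T ∧
        a ≤ (comp g x0 I R l).card ∧ l.length ≤ 2 ^ R) ∨
      ∃ θ : Ty P n w N, CF (fine g) x0 R I ∧
        InT P g x0 R (sig P θ) θ.1.2 (fun l x => Greedy P T (sig P θ l.succ) x) I ∧ gout g x0 R γ I = zz θ := by
    rintro I ⟨hI, l, ⟨t, hrun, hz⟩, hcut⟩
    have hb : Best P e I P.start l t := Pool.Agent.Helper98.PH.unamb_best hP hrun hz
    obtain ⟨x, q, hq0, hq1, hq4, hq2⟩ := Pool.Agent.Helper98.PH.exists_windows hrun ⟨_, hz⟩ hcut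
    by_cases hc : ∃ j, a ≤ (comp g x0 I R (x j)).card
    · obtain ⟨j, hj⟩ := hc
      obtain ⟨A, A', hA⟩ := flatten_piece x j
      rw [hq4] at hA
      rw [hA] at hb
      obtain ⟨s', t', hb'⟩ := hb.window
      refine Or.inl ⟨hI, s', x j, t', hb', (hq2 j).2.1, hj, ?_⟩
      exact (run_short hb'.run hb'.len).le.trans hS
    · push Not at hc
      have h1 : ∀ k : Fin (w + 2), (Fin.cons P.start (fun j : Fin (w + 1) => q j.succ) : Fin (w + 2) → Fin S) k = q k := by
        intro k
        refine Fin.cases ?_ (fun k => ?_) k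
        · rw [Fin.cons_zero, hq0]
        · rw [Fin.cons_succ]
      have h2 : P.act (q (Fin.last w).succ) = Sum.inr (gout g x0 R γ I) := by
        rw [Fin.succ_last, hq1]
        exact hz
      have h3 : N ≤ (opn (fun l v => miss g x0 I R (x l) v)).card := by
        have h4 := opn_card x hc
        omega
      obtain ⟨θ, hθ⟩ : ∃ θ : Ty P n w N, θ.1 = (fun j => q j.succ, fun l v => miss g x0 I R (x l) v) :=
        ⟨⟨(fun j => q j.succ, fun l v => miss g x0 I R (x l) v), h3, _, h2⟩, rfl⟩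
      have hsig : ∀ k, sig P θ k = q k := by
        intro k
        unfold sig
        rw [hθ]
        exact h1 k
      refine Or.inr ⟨θ, hI, ?_, ?_⟩
      · intro j
        refine ⟨x j, ?_, ?_, fun v => ?_⟩
        · rw [hsig, hsig]
          exact (hq2 j).1
        · show Greedy P T (sig P θ j.succ) (x j)
          rw [hsig]
          exact (hq2 j).2
        · rw [hθ]
      · have h5 := hzz θ
        have h6 : θ.1.1 (Fin.last w) = q (Fin.last w).succ := by rw [hθ]
        rw [h6, h2] at h5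
        exact Sum.inr.inj h5
  have h1 := card_le_add_sum hcov
  have hsum : ∑ θ : Ty P n w N, Nat.card {I : B → Fin d × Fin m → B // CF (fine g) x0 R I ∧
      InT P g x0 R (sig P θ) θ.1.2 (fun l x => Greedy P T (sig P θ l.succ) x) I} ≤
      Nat.card {I : B → Fin d × Fin m → B // ∃ l z, P.Ends I l z ∧ Cut T (w + 1) l} := by
    refine sum_card_le ?_ ?_
    · rintro θ I ⟨_, hI⟩
      choose x hx using hI
      have h4 := run_flatten (w + 1) (sig P θ) x (fun j => (hx j).1)
      rw [sig_zero, sig_last] at h4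
      refine ⟨_, zz θ, ⟨_, h4, hzz θ⟩, List.ofFn x, List.length_ofFn, rfl, ?_⟩
      intro p hp
      rw [List.mem_ofFn] at hp
      obtain ⟨j, rfl⟩ := hp
      exact (hx j).2.1.1
    · rintro θ θ' I ⟨_, hI⟩ ⟨_, hI'⟩
      choose x hx using hI
      choose x' hx' using hI'
      have h5 := Pool.Agent.Helper98.PH.unique_windows hP (sig_zero P θ) (sig_zero P θ') (by rw [sig_last]; exact hzz θ)
        (by rw [sig_last]; exact hzz θ') (fun j => ⟨(hx j).1, (hx j).2.1⟩) (fun j => ⟨(hx' j).1, (hx' j).2.1⟩)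
      refine Subtype.ext (Prod.ext ?_ ?_)
      · funext j
        have h6 := congrFun h5.1 j.succ
        unfold sig at h6
        rwa [Fin.cons_succ, Fin.cons_succ] at h6
      · funext l v
        rw [← (hx l).2.2 v, ← (hx' l).2.2 v, h5.2]
  have h2 : (Nat.card {I : B → Fin d × Fin m → B // CF (fine g) x0 R I ∧ ∃ l, P.Ends I l (gout g x0 R γ I) ∧
        Cut T (w + 1) l} : ℝ) ≤
      (Nat.card {I : B → Fin d × Fin m → B // CF (fine g) x0 R I ∧ ∃ s l t, Best P e I s l t ∧
        Nat.card {c // c ∈ l} ≤ T ∧ a ≤ (comp g x0 I R l).card ∧ l.length ≤ 2 ^ R} : ℝ) +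
        ∑ θ : Ty P n w N, (Nat.card {I : B → Fin d × Fin m → B // CF (fine g) x0 R I ∧
          InT P g x0 R (sig P θ) θ.1.2 (fun l x => Greedy P T (sig P θ l.succ) x) I ∧
            gout g x0 R γ I = zz θ} : ℝ) := by exact_mod_cast h1
  have hGpos : (0 : ℝ) ≤ Fintype.card G := Nat.cast_nonneg _
  refine h2.trans ?_
  have h3 : ∑ θ : Ty P n w N, (Nat.card {I : B → Fin d × Fin m → B // CF (fine g) x0 R I ∧
          InT P g x0 R (sig P θ) θ.1.2 (fun l x => Greedy P T (sig P θ l.succ) x) I ∧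
            gout g x0 R γ I = zz θ} : ℝ) ≤
      (Nat.card {I : B → Fin d × Fin m → B // ∃ l z, P.Ends I l z ∧ Cut T (w + 1) l} : ℝ) / Fintype.card G +
        (S * (d * m + 1) ^ n) ^ (w + 1) * E * Nat.card (B → Fin d × Fin m → B) := by
    calc ∑ θ : Ty P n w N, (Nat.card {I : B → Fin d × Fin m → B // CF (fine g) x0 R I ∧
          InT P g x0 R (sig P θ) θ.1.2 (fun l x => Greedy P T (sig P θ l.succ) x) I ∧
            gout g x0 R γ I = zz θ} : ℝ)
        ≤ ∑ θ : Ty P n w N, ((Nat.card {I : B → Fin d × Fin m → B // CF (fine g) x0 R I ∧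
          InT P g x0 R (sig P θ) θ.1.2 (fun l x => Greedy P T (sig P θ l.succ) x) I} : ℝ) / Nat.card G +
            E * Nat.card (B → Fin d × Fin m → B)) := Finset.sum_le_sum fun θ _ =>
          type_bound (R := R) P g x0 γ (sig P θ) θ.1.2 (hE _ θ.2.1)
            (fun l x => Greedy P T (sig P θ l.succ) x) (zz θ)
      _ = (∑ θ : Ty P n w N, (Nat.card {I : B → Fin d × Fin m → B // CF (fine g) x0 R I ∧
          InT P g x0 R (sig P θ) θ.1.2 (fun l x => Greedy P T (sig P θ l.succ) x) I} : ℝ)) / Nat.card G +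
            Nat.card (Ty P n w N) * (E * Nat.card (B → Fin d × Fin m → B)) := by
          rw [Finset.sum_add_distrib, Finset.sum_div, Finset.sum_const, Finset.card_univ, nsmul_eq_mul,
            Nat.card_eq_fintype_card (α := Ty P n w N)]
      _ ≤ _ := by
          refine add_le_add ?_ ?_
          · rw [Nat.card_eq_fintype_card (α := G)]
            refine div_le_div_of_nonneg_right ?_ hGpos
            exact_mod_cast hsum
          · rw [mul_assoc]
            refine mul_le_mul_of_nonneg_right ?_ (by positivity)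
            exact_mod_cast card_Ty P n w N
  calc _ ≤ R * n.choose a * ((d * m) ^ a) ^ 2 * (S : ℝ) ^ 3 * δ * Nat.card (B → Fin d × Fin m → B) +
        ((Nat.card {I : B → Fin d × Fin m → B // ∃ l z, P.Ends I l z ∧ Cut T (w + 1) l} : ℝ) / Fintype.card G +
        (S * (d * m + 1) ^ n) ^ (w + 1) * E * Nat.card (B → Fin d × Fin m → B)) := add_le_add hgood h3
    _ = _ := by ring

end Pool.Agent.Helper78.PH
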