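import Pool.Agent.Helper78.PH.Shift
import Pool.Agent.Helper1.PH.Letters

/-!
# Windows in which the shifted cells are not queried
-/

set_option autoImplicit false

namespace Pool.Agent.Helper78.PH

open Pool.Agent.Helper74.NE Pool.Agent.Helper96.NE
open Pool.Agent.Helper74.NW
open Pool.Agent.Helper19.NF
open Pool.Agent.Helper1.PH (gow value_bound)

/-- The value of the network: the sum of the values of the elements of the row `R`. -/
def outG {U D B G : Type} [Fintype U] [Fintype D] [AddCommGroup B] [AddCommGroup G] (γ : B → G)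
    (g : D → Equiv.Perm U) (x0 : U → B) (R : ℕ) (I : B → D → B) : G :=
  ∑ u, γ (val g x0 I R u)

variable {n d m : ℕ} {B G Z : Type} [AddCommGroup B] [NeZero m] {w S : ℕ}

/-- The instances with a computation from the state `q 0` to the state `q (w + 1)` with windows between the states
`q l` and `q (l + 1)` which do not query the holes `r l` and have the property `Φ l`. -/
def InT {a : ℕ} (P : NProg B (Fin d × Fin m → B) Z S) (g : Fin d → Equiv.Perm (Fin n)) (x0 : Fin n × Fin m → B)
    (i : ℕ) (Φ : Fin (w + 1) → (Fin n × Fin m → B) → List B → Prop) (u : Fin a → Fin n)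
    (r : Fin (w + 1) → Fin a → Fin d × Fin m) (q : Fin (w + 2) → Fin S) (I : B → Fin d × Fin m → B) : Prop :=
  CF (fine g) x0 i I ∧ ∀ l : Fin (w + 1), ∃ p, P.Run I (q l.castSucc) p (q l.succ) ∧
    Φ l (val (fine g) x0 I i) p ∧ ∀ j, hole g x0 i u (r l) I j ∉ p

variable {g : Fin d → Equiv.Perm (Fin n)} {x0 : Fin n × Fin m → B} {i a : ℕ} {u : Fin a → Fin n}
variable {r : Fin (w + 1) → Fin a → Fin d × Fin m} {Φ : Fin (w + 1) → (Fin n × Fin m → B) → List B → Prop}
variable {q : Fin (w + 2) → Fin S} {P : NProg B (Fin d × Fin m → B) Z S}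

/-- The shifts such that there is a window number `l`. -/
def cyl (P : NProg B (Fin d × Fin m → B) Z S) (g : Fin d → Equiv.Perm (Fin n)) (x0 : Fin n × Fin m → B)
    (i : ℕ) (Φ : Fin (w + 1) → (Fin n × Fin m → B) → List B → Prop) (u : Fin a → Fin n)
    (r : Fin (w + 1) → Fin a → Fin d × Fin m) (q : Fin (w + 2) → Fin S) (I : B → Fin d × Fin m → B)
    (l : Fin (w + 1)) : Set (Fin (w + 1) → Fin a × Fin m → B) :=
  {y | ∃ p, P.Run (I + mch g x0 i u r y I) (q l.castSucc) p (q l.succ) ∧
    Φ l (val (fine g) x0 I i) p ∧ ∀ j, hole g x0 i u (r l) I j ∉ p}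

theorem inT_iff {I : B → Fin d × Fin m → B} (hI : CF (fine g) x0 i I) (y : Fin (w + 1) → Fin a × Fin m → B) :
    InT P g x0 i Φ u r q (I + mch g x0 i u r y I) ↔ ∀ l, y ∈ cyl P g x0 i Φ u r q I l := by
  have h1 : val (fine g) x0 (I + mch g x0 i u r y I) i = val (fine g) x0 I i :=
    funext fun v => val_mch_le hI y i le_rfl v
  have h2 : ∀ l j, hole g x0 i u (r l) (I + mch g x0 i u r y I) j = hole g x0 i u (r l) I j :=
    fun l j => hole_mch hI y j
  unfold InT
  simp only [h1, h2]
  exact and_iff_right (CF_mch hI y)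

theorem mem_cyl_of_update {I : B → Fin d × Fin m → B} {l : Fin (w + 1)} {y : Fin (w + 1) → Fin a × Fin m → B}
    (z : Fin a × Fin m → B) (h : y ∈ cyl P g x0 i Φ u r q I l) :
    Function.update y l z ∈ cyl P g x0 i Φ u r q I l := by
  obtain ⟨p, h1, h2, h3⟩ := h
  refine ⟨p, run_congr h1 fun c hc => ?_, h2, h3⟩
  rw [Pi.add_apply, Pi.add_apply, mch_update (u := u) y l z fun j hj => h3 j (hj ▸ hc)]

theorem update_mem_cyl {I : B → Fin d × Fin m → B} (l : Fin (w + 1)) (y : Fin (w + 1) → Fin a × Fin m → B)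
    (z : Fin a × Fin m → B) :
    Function.update y l z ∈ cyl P g x0 i Φ u r q I l ↔ y ∈ cyl P g x0 i Φ u r q I l := by
  refine ⟨fun h => ?_, mem_cyl_of_update z⟩
  have h1 := mem_cyl_of_update (y l) h
  rwa [Function.update_idem, Function.update_eq_self] at h1

/-- The value after the shifts. -/
theorem outG_mch [AddCommGroup G] (γ : B → G) {I : B → Fin d × Fin m → B} (hI : CF (fine g) x0 i I)
    (hu : Function.Injective u) :
    ∃ b : G, ∀ y : Fin (w + 1) → Fin a × Fin m → B, outG γ (fine g) x0 (i + 1) (I + mch g x0 i u r y I) =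
      b + ∑ c : Fin a × Fin m, γ (val (fine g) x0 I (i + 1) (u c.1, c.2) + ∑ l, y l c) := by
  classical
  refine ⟨∑ v ∈ Finset.univ.filter (fun v => v ∉ Finset.univ.image u), ∑ t, γ (val (fine g) x0 I (i + 1) (v, t)),
    fun y => ?_⟩
  unfold outG
  rw [Fintype.sum_prod_type, Fintype.sum_prod_type,
    ← Finset.sum_filter_add_sum_filter_not Finset.univ (fun v => v ∉ Finset.univ.image u)]
  congr 1
  · refine Finset.sum_congr rfl fun v hv => Finset.sum_congr rfl fun t _ => ?_
    rw [val_mch_not_mem hI y]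
    intro j hj
    exact (Finset.mem_filter.mp hv).2 (Finset.mem_image.mpr ⟨j, Finset.mem_univ _, hj⟩)
  · have h1 : Finset.univ.filter (fun v => ¬ v ∉ Finset.univ.image u) = Finset.univ.image u := by
      ext v
      simp
    rw [h1, Finset.sum_image fun _ _ _ _ h => hu h]
    refine Finset.sum_congr rfl fun j _ => Finset.sum_congr rfl fun t _ => ?_
    exact congrArg γ (val_mch_mem (r := r) hI hu y (j, t))

/-- The value is nearly uniform in a class. -/
theorem class_value [Fintype B] [AddCommGroup G] [Fintype G] (γ : B → G) {η δ : ℝ} (hδ : 0 ≤ δ)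
    (hη : ∀ χ : AddChar G ℂ, χ ≠ 1 → gow w (fun b => χ (γ b)) ≤ η) (hηδ : η ^ (a * m) ≤ δ ^ 2 ^ (w + 1))
    (hu : Function.Injective u) (b : G) (I : B → Fin d × Fin m → B) (hI : CF (fine g) x0 i I) :
    (Nat.card {y : Fin (w + 1) → Fin a × Fin m → B // InT P g x0 i Φ u r q (I + mch g x0 i u r y I) ∧
        outG γ (fine g) x0 (i + 1) (I + mch g x0 i u r y I) = b} : ℝ) ≤
      (Nat.card {y : Fin (w + 1) → Fin a × Fin m → B // InT P g x0 i Φ u r q (I + mch g x0 i u r y I)} : ℝ) /
        Nat.card G + δ * Nat.card (Fin (w + 1) → Fin a × Fin m → B) := by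
  classical
  obtain ⟨b', hb'⟩ := outG_mch (w := w) (r := r) γ hI hu
  have h1 := value_bound (ι := Fin a × Fin m) w γ hδ hη
    (by rw [Fintype.card_prod, Fintype.card_fin, Fintype.card_fin]; exact hηδ)
    (cyl P g x0 i Φ u r q I) (fun l y z => update_mem_cyl l y z)
    (fun c => val (fine g) x0 I (i + 1) (u c.1, c.2)) (b - b')
  have h2 : ∀ y : Fin (w + 1) → Fin a × Fin m → B,
      (InT P g x0 i Φ u r q (I + mch g x0 i u r y I) ∧
        outG γ (fine g) x0 (i + 1) (I + mch g x0 i u r y I) = b) ↔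
      ((∀ l, y ∈ cyl P g x0 i Φ u r q I l) ∧
        ∑ c : Fin a × Fin m, γ (val (fine g) x0 I (i + 1) (u c.1, c.2) + ∑ l, y l c) = b - b') := by
    intro y
    rw [inT_iff hI, hb' y]
    refine and_congr_right fun _ => ?_
    rw [eq_sub_iff_add_eq, add_comm]
  have h3 : ∀ y : Fin (w + 1) → Fin a × Fin m → B, InT P g x0 i Φ u r q (I + mch g x0 i u r y I) ↔
      ∀ l, y ∈ cyl P g x0 i Φ u r q I l := fun y => inT_iff hI y
  rw [Nat.card_congr (Equiv.subtypeEquivRight h2), Nat.card_congr (Equiv.subtypeEquivRight h3)]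
  exact h1

/-- Counting with shifts. -/
theorem shift_count [Fintype B] (X : (B → Fin d × Fin m → B) → Prop) (hX : ∀ I, X I → CF (fine g) x0 i I) :
    Nat.card {I // X I} * Nat.card (Fin (w + 1) → Fin a × Fin m → B) =
      ∑ᶠ I : {I : B → Fin d × Fin m → B // CF (fine g) x0 i I},
        Nat.card {y : Fin (w + 1) → Fin a × Fin m → B // X (I.1 + mch g x0 i u r y I.1)} := by
  classical
  rw [← Nat.card_prod]
  have e1 : {I // X I} × (Fin (w + 1) → Fin a × Fin m → B) ≃
      Σ I : {I : B → Fin d × Fin m → B // CF (fine g) x0 i I},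
        {y : Fin (w + 1) → Fin a × Fin m → B // X (I.1 + mch g x0 i u r y I.1)} :=
    { toFun := fun p => ⟨⟨p.1.1 + mch g x0 i u r (-p.2) p.1.1, CF_mch (hX _ p.1.2) _⟩, ⟨p.2, by
        have h := mch_mch_neg (u := u) (r := r) (hX _ p.1.2) (-p.2)
        rw [neg_neg] at h
        show X (p.1.1 + mch g x0 i u r (-p.2) p.1.1 + mch g x0 i u r p.2 (p.1.1 + mch g x0 i u r (-p.2) p.1.1))
        rw [h]
        exact p.1.2⟩⟩
      invFun := fun s => (⟨s.1.1 + mch g x0 i u r s.2.1 s.1.1, s.2.2⟩, s.2.1)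
      left_inv := by
        rintro ⟨⟨I, hI⟩, y⟩
        have h := mch_mch_neg (u := u) (r := r) (hX _ hI) (-y)
        rw [neg_neg] at h
        exact Prod.ext (Subtype.ext h) rfl
      right_inv := by
        rintro ⟨⟨I, hI⟩, ⟨y, hy⟩⟩
        have h := mch_mch_neg (u := u) (r := r) hI y
        refine Sigma.ext (Subtype.ext h) ?_
        simp only
        refine (Subtype.heq_iff_coe_eq ?_).mpr rfl
        intro y'
        rw [h] }
  rw [Nat.card_congr e1, Nat.card_sigma, finsum_eq_sum_of_fintype]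

/-- The value is nearly uniform in a type. -/
theorem type_value [Fintype B] [AddCommGroup G] [Fintype G] (γ : B → G) {η δ : ℝ} (hδ : 0 ≤ δ)
    (hη : ∀ χ : AddChar G ℂ, χ ≠ 1 → gow w (fun b => χ (γ b)) ≤ η) (hηδ : η ^ (a * m) ≤ δ ^ 2 ^ (w + 1))
    (hu : Function.Injective u) (b : G) :
    (Nat.card {I : B → Fin d × Fin m → B // InT P g x0 i Φ u r q I ∧ outG γ (fine g) x0 (i + 1) I = b} : ℝ) ≤
      (Nat.card {I : B → Fin d × Fin m → B // InT P g x0 i Φ u r q I} : ℝ) / Nat.card G +
        δ * Nat.card (B → Fin d × Fin m → B) := by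
  classical
  have h1 := shift_count (w := w) (u := u) (r := r) (i := i) (g := g) (x0 := x0)
    (fun I => InT P g x0 i Φ u r q I ∧ outG γ (fine g) x0 (i + 1) I = b) (fun I hI => hI.1.1)
  have h2 := shift_count (w := w) (u := u) (r := r) (i := i) (g := g) (x0 := x0)
    (fun I => InT P g x0 i Φ u r q I) (fun I hI => hI.1)
  rw [finsum_eq_sum_of_fintype] at h1 h2
  have hY : (0 : ℝ) < Nat.card (Fin (w + 1) → Fin a × Fin m → B) := by exact_mod_cast Nat.card_pos
  have h3 : (Nat.card {I : B → Fin d × Fin m → B // InT P g x0 i Φ u r q I ∧ outG γ (fine g) x0 (i + 1) I = b} : ℝ) *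
      Nat.card (Fin (w + 1) → Fin a × Fin m → B) ≤
      ((Nat.card {I : B → Fin d × Fin m → B // InT P g x0 i Φ u r q I} : ℝ) / Nat.card G +
        δ * Nat.card (B → Fin d × Fin m → B)) * Nat.card (Fin (w + 1) → Fin a × Fin m → B) := by
    have h4 : (Nat.card {I : B → Fin d × Fin m → B //
        InT P g x0 i Φ u r q I ∧ outG γ (fine g) x0 (i + 1) I = b} : ℝ) *
        Nat.card (Fin (w + 1) → Fin a × Fin m → B) =
        ∑ I : {I : B → Fin d × Fin m → B // CF (fine g) x0 i I},
          (Nat.card {y : Fin (w + 1) → Fin a × Fin m → B // InT P g x0 i Φ u r q (I.1 + mch g x0 i u r y I.1) ∧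
            outG γ (fine g) x0 (i + 1) (I.1 + mch g x0 i u r y I.1) = b} : ℝ) := by exact_mod_cast h1
    have h5 : (Nat.card {I : B → Fin d × Fin m → B // InT P g x0 i Φ u r q I} : ℝ) *
        Nat.card (Fin (w + 1) → Fin a × Fin m → B) =
        ∑ I : {I : B → Fin d × Fin m → B // CF (fine g) x0 i I},
          (Nat.card {y : Fin (w + 1) → Fin a × Fin m → B //
            InT P g x0 i Φ u r q (I.1 + mch g x0 i u r y I.1)} : ℝ) := by exact_mod_cast h2
    rw [h4, add_mul, div_mul_eq_mul_div, h5, Finset.sum_div]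
    calc ∑ I : {I : B → Fin d × Fin m → B // CF (fine g) x0 i I},
          (Nat.card {y : Fin (w + 1) → Fin a × Fin m → B // InT P g x0 i Φ u r q (I.1 + mch g x0 i u r y I.1) ∧
            outG γ (fine g) x0 (i + 1) (I.1 + mch g x0 i u r y I.1) = b} : ℝ)
        ≤ ∑ I : {I : B → Fin d × Fin m → B // CF (fine g) x0 i I},
          ((Nat.card {y : Fin (w + 1) → Fin a × Fin m → B //
            InT P g x0 i Φ u r q (I.1 + mch g x0 i u r y I.1)} : ℝ) / Nat.card G +
              δ * Nat.card (Fin (w + 1) → Fin a × Fin m → B)) :=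
          Finset.sum_le_sum fun I _ => class_value γ hδ hη hηδ hu b I.1 I.2
      _ ≤ _ := by
          rw [Finset.sum_add_distrib, Finset.sum_const, nsmul_eq_mul, Finset.card_univ]
          refine add_le_add le_rfl ?_
          have h6 : Fintype.card {I : B → Fin d × Fin m → B // CF (fine g) x0 i I} ≤
              Nat.card (B → Fin d × Fin m → B) := by
            rw [← Nat.card_eq_fintype_card]
            exact Nat.card_le_card_of_injective _ Subtype.val_injective
          have h7 : (Fintype.card {I : B → Fin d × Fin m → B // CF (fine g) x0 i I} : ℝ) ≤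
              Nat.card (B → Fin d × Fin m → B) := by exact_mod_cast h6
          calc _ ≤ (Nat.card (B → Fin d × Fin m → B) : ℝ) *
                (δ * Nat.card (Fin (w + 1) → Fin a × Fin m → B)) :=
                mul_le_mul_of_nonneg_right h7 (mul_nonneg hδ hY.le)
            _ = _ := by ring
  exact le_of_mul_le_mul_right h3 hY

end Pool.Agent.Helper78.PH
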