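import Pool.Agent.Helper96.NE.Two

/-!
# Several shifts
-/

set_option autoImplicit false

namespace Pool.Agent.Helper78.PH

open Pool.Agent.Helper74.NE Pool.Agent.Helper96.NE
open Pool.Agent.Helper74.NW
open Pool.Agent.Helper19.NF

variable {n d m : ℕ} {B : Type} [AddCommGroup B] [NeZero m] {W : ℕ}

/-- The sum of the changes of the contents of the holes `r 0`, ..., `r (W - 1)` by `y 0`, ..., `y (W - 1)`. -/
noncomputable def mch {a : ℕ} (g : Fin d → Equiv.Perm (Fin n)) (x0 : Fin n × Fin m → B) (i : ℕ)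
    (u : Fin a → Fin n) (r : Fin W → Fin a → Fin d × Fin m) (y : Fin W → Fin a × Fin m → B)
    (I : B → Fin d × Fin m → B) : B → Fin d × Fin m → B :=
  ∑ l, chg g x0 i u (r l) (y l) I

variable {g : Fin d → Equiv.Perm (Fin n)} {x0 : Fin n × Fin m → B} {i a : ℕ} {u : Fin a → Fin n}
variable {r : Fin W → Fin a → Fin d × Fin m} {I : B → Fin d × Fin m → B}

theorem mch_apply (y : Fin W → Fin a × Fin m → B) (b : B) :
    mch g x0 i u r y I b = ∑ l, chg g x0 i u (r l) (y l) I b := by
  unfold mch
  rw [Finset.sum_apply]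

theorem mch_of_not {y : Fin W → Fin a × Fin m → B} {b : B} (hb : ∀ l j, b ≠ hole g x0 i u (r l) I j) :
    mch g x0 i u r y I b = 0 := by
  rw [mch_apply]
  exact Finset.sum_eq_zero fun l _ => chg_of_not (hb l)

theorem mch_ne {y : Fin W → Fin a × Fin m → B} (b : B) (hb : mch g x0 i u r y I b ≠ 0) :
    ∃ v, b = val (fine g) x0 I i v := by
  by_contra hc
  exact hb (mch_of_not fun l j hj => hc ⟨_, hj⟩)

theorem val_mch_le (hI : CF (fine g) x0 i I) (y : Fin W → Fin a × Fin m → B) (j : ℕ) (hj : j ≤ i)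
    (v : Fin n × Fin m) : val (fine g) x0 (I + mch g x0 i u r y I) j v = val (fine g) x0 I j v :=
  val_add hI _ mch_ne j hj v

theorem hole_mch (hI : CF (fine g) x0 i I) (y : Fin W → Fin a × Fin m → B) {ρ : Fin a → Fin d × Fin m}
    (j : Fin a) : hole g x0 i u ρ (I + mch g x0 i u r y I) j = hole g x0 i u ρ I j := by
  unfold hole
  rw [val_mch_le hI y i le_rfl]

theorem CF_mch (hI : CF (fine g) x0 i I) (y : Fin W → Fin a × Fin m → B) :
    CF (fine g) x0 i (I + mch g x0 i u r y I) := CF_add hI _ mch_ne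

theorem chg_mch (hI : CF (fine g) x0 i I) (y : Fin W → Fin a × Fin m → B) (ρ : Fin a → Fin d × Fin m)
    (z : Fin a × Fin m → B) : chg g x0 i u ρ z (I + mch g x0 i u r y I) = chg g x0 i u ρ z I := by
  classical
  funext b c
  unfold chg
  refine Finset.sum_congr rfl fun j _ => Finset.sum_congr rfl fun t _ => ?_
  rw [hole_mch hI y j]

theorem mch_mch (hI : CF (fine g) x0 i I) (y z : Fin W → Fin a × Fin m → B) :
    mch g x0 i u r z (I + mch g x0 i u r y I) = mch g x0 i u r z I := by
  unfold mch
  refine Finset.sum_congr rfl fun l _ => ?_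
  exact chg_mch hI y (r l) (z l)

theorem chg_neg (ρ : Fin a → Fin d × Fin m) (z : Fin a × Fin m → B) :
    chg g x0 i u ρ (-z) I = -chg g x0 i u ρ z I := by
  classical
  funext b c
  unfold chg
  rw [Pi.neg_apply, Pi.neg_apply, ← Finset.sum_neg_distrib]
  refine Finset.sum_congr rfl fun j _ => ?_
  rw [← Finset.sum_neg_distrib]
  refine Finset.sum_congr rfl fun t _ => ?_
  split_ifs
  · rfl
  · rw [neg_zero]

theorem mch_neg (y : Fin W → Fin a × Fin m → B) : mch g x0 i u r (-y) I = -mch g x0 i u r y I := by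
  unfold mch
  rw [← Finset.sum_neg_distrib]
  refine Finset.sum_congr rfl fun l _ => ?_
  exact chg_neg (r l) (y l)

/-- The shift by `-y` is the inverse of the shift by `y`. -/
theorem mch_mch_neg (hI : CF (fine g) x0 i I) (y : Fin W → Fin a × Fin m → B) :
    I + mch g x0 i u r y I + mch g x0 i u r (-y) (I + mch g x0 i u r y I) = I := by
  rw [mch_mch hI, mch_neg, add_neg_cancel_right]

/-- The letters of the row `i + 1` after the shifts. -/
theorem val_mch (hI : CF (fine g) x0 i I) (y : Fin W → Fin a × Fin m → B) (v : Fin n) (t : Fin m) :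
    val (fine g) x0 (I + mch g x0 i u r y I) (i + 1) (v, t) =
      val (fine g) x0 I (i + 1) (v, t) + ∑ l, ∑ j, if u j = v then y l (j, t) else 0 := by
  classical
  rw [val_add_succ hI _ mch_ne]
  congr 1
  have h1 : ∀ l, ∑ s, chg g x0 i u (r l) (y l) I (val (fine g) x0 I i (fine g s (v, t))) s =
      ∑ j, if u j = v then y l (j, t) else 0 := by
    intro l
    have h2 := val_chg (u := u) (r := r l) hI (y l) v t
    rw [val_add_succ hI _ chg_ne] at h2
    exact add_left_cancel h2
  rw [← Finset.sum_congr rfl fun l _ => h1 l, Finset.sum_comm]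
  refine Finset.sum_congr rfl fun s _ => ?_
  rw [mch_apply, Finset.sum_apply]

/-- The letters of the nodes `u j`. -/
theorem val_mch_mem (hI : CF (fine g) x0 i I) (hu : Function.Injective u) (y : Fin W → Fin a × Fin m → B)
    (c : Fin a × Fin m) :
    val (fine g) x0 (I + mch g x0 i u r y I) (i + 1) (u c.1, c.2) =
      val (fine g) x0 I (i + 1) (u c.1, c.2) + ∑ l, y l c := by
  rw [val_mch hI]
  congr 1
  refine Finset.sum_congr rfl fun l _ => ?_
  rw [Finset.sum_eq_single c.1]
  · rw [if_pos rfl]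
  · intro j' _ hj'
    rw [if_neg fun h5 => hj' (hu h5)]
  · intro h5
    exact (h5 (Finset.mem_univ _)).elim

/-- The letters of the other nodes. -/
theorem val_mch_not_mem (hI : CF (fine g) x0 i I) (y : Fin W → Fin a × Fin m → B) {v : Fin n}
    (hv : ∀ j, u j ≠ v) (t : Fin m) :
    val (fine g) x0 (I + mch g x0 i u r y I) (i + 1) (v, t) = val (fine g) x0 I (i + 1) (v, t) := by
  rw [val_mch hI, Finset.sum_eq_zero, add_zero]
  intro l _
  exact Finset.sum_eq_zero fun j _ => if_neg (hv j)

open Classical in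
/-- The shift number `l` changes only the contents of the holes `r l`. -/
theorem mch_update (y : Fin W → Fin a × Fin m → B) (l : Fin W) (z : Fin a × Fin m → B) {b : B}
    (hb : ∀ j, b ≠ hole g x0 i u (r l) I j) :
    mch g x0 i u r (Function.update y l z) I b = mch g x0 i u r y I b := by
  rw [mch_apply, mch_apply]
  refine Finset.sum_congr rfl fun l' _ => ?_
  by_cases h : l' = l
  · subst h
    rw [chg_of_not hb, chg_of_not hb]
  · rw [Function.update_of_ne h]

end Pool.Agent.Helper78.PH
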